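import Pool.Agent.Q194.LipNet.Pel
import Pool.Agent.H266R3.LDef

/-!
# The geometric part: `ℓ_∞(Lip_0(N))` is complemented in `Lip_0(N)`
-/

set_option autoImplicit false

noncomputable section

namespace Pool.Agent.Q194.LipNet

open scoped ENNReal
open Filter Topology
open Pool.Agent.H266R3.LF

/-! ### Limits along an ultrafilter -/

/-- Limit along a fixed non principal ultrafilter. -/
def ulim (a : ℕ → ℝ) : ℝ := limUnder (hyperfilter ℕ : Filter ℕ) a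

theorem tendsto_ulim {a : ℕ → ℝ} {C : ℝ} (h : ∀ n, |a n| ≤ C) :
    Tendsto a (hyperfilter ℕ : Filter ℕ) (𝓝 (ulim a)) := by
  have hc : IsCompact (Set.Icc (-C) C) := isCompact_Icc
  obtain ⟨x, -, hx⟩ := hc.ultrafilter_le_nhds ((hyperfilter ℕ).map a) (by
    rw [le_principal_iff]
    exact Filter.mem_map.2 (Filter.univ_mem' fun n => abs_le.1 (h n)))
  exact tendsto_nhds_limUnder ⟨x, hx⟩

theorem ulim_eq {a : ℕ → ℝ} {x : ℝ} (h : Tendsto a (hyperfilter ℕ : Filter ℕ) (𝓝 x)) :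
    ulim a = x := h.limUnder_eq

theorem ulim_add {a b : ℕ → ℝ} {C D : ℝ} (ha : ∀ n, |a n| ≤ C) (hb : ∀ n, |b n| ≤ D) :
    ulim (fun n => a n + b n) = ulim a + ulim b :=
  ulim_eq ((tendsto_ulim ha).add (tendsto_ulim hb))

theorem ulim_smul {a : ℕ → ℝ} {C : ℝ} (c : ℝ) (ha : ∀ n, |a n| ≤ C) :
    ulim (fun n => c * a n) = c * ulim a :=
  ulim_eq ((tendsto_ulim ha).const_mul c)

theorem abs_ulim_le {a : ℕ → ℝ} {C : ℝ} (ha : ∀ n, |a n| ≤ C) : |ulim a| ≤ C :=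
  le_of_tendsto (tendsto_ulim ha).abs (Eventually.of_forall ha)

theorem ulim_of_eventually {a : ℕ → ℝ} {x : ℝ} (h : ∀ᶠ n in atTop, a n = x) :
    ulim a = x := by
  refine ulim_eq (tendsto_const_nhds.congr' ?_)
  have h1 : ((hyperfilter ℕ : Ultrafilter ℕ) : Filter ℕ) ≤ atTop := by
    rw [← Nat.cofinite_eq_atTop]
    exact hyperfilter_le_cofinite
  exact (h.filter_mono h1).mono fun n hn => hn.symm

/-! ### Rounding -/

section

variable {X : Type} [NormedAddCommGroup X] [NormedSpace ℝ X] {N : Set X} {ε δ : ℝ}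

omit [NormedSpace ℝ X] in
/-- A rounding map onto the net. -/
theorem exists_round (hsep : ∀ x ∈ N, ∀ y ∈ N, x ≠ y → ε ≤ dist x y)
    (hden : ∀ x : X, ∃ y ∈ N, dist x y < δ) :
    ∃ r : X → N, (∀ x : X, dist x (r x : X) < δ) ∧ ∀ (p : N) (x : X), dist x p < ε / 2 → dist x p < δ →
      r x = p := by
  classical
  have H : ∀ x : X, ∃ y : N, dist x y < δ ∧ ∀ p : N, dist x p < ε / 2 → dist x p < δ → y = p := by
    intro x
    by_cases hx : ∃ p : N, dist x p < ε / 2 ∧ dist x p < δ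
    · obtain ⟨p, hp, hp'⟩ := hx
      refine ⟨p, hp', fun q hq _ => ?_⟩
      by_contra hne
      have h1 := hsep p p.2 q q.2 (fun h => hne (Subtype.ext h))
      have h2 := dist_triangle_left (p : X) q x
      linarith
    · push Not at hx
      obtain ⟨y, hy, hxy⟩ := hden x
      exact ⟨⟨y, hy⟩, hxy, fun p hp hp' => absurd (hx p hp) (by simpa using hp')⟩
  choose r h1 h2 using H
  exact ⟨r, h1, fun p x hx hx' => h2 x p hx hx'⟩

/-- The data used in the construction. -/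
structure Data (X : Type) [NormedAddCommGroup X] [NormedSpace ℝ X] (N : Set X) where
  /-- separation constant -/
  ε : ℝ
  /-- density constant -/
  δ : ℝ
  /-- dilation -/
  Λ : ℝ
  /-- direction -/
  e : X
  /-- base point -/
  o : N
  /-- rounding -/
  r : X → N
  hε : 0 < ε
  hδ : 0 < δ
  hΛ : 1 ≤ Λ
  hΛ' : δ / Λ < ε / 2
  he : ‖e‖ = 1
  hsep : ∀ x ∈ N, ∀ y ∈ N, x ≠ y → ε ≤ dist x y
  hr : ∀ x : X, dist x (r x : X) < δ
  hr' : ∀ (p : N) (x : X), dist x p < ε / 2 → dist x p < δ → r x = p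

namespace Data

variable (D : Data X N)

/-- scale -/
def M : ℝ := D.Λ + D.δ

theorem M_pos : 0 < D.M := by
  have := D.hΛ; have := D.hδ; unfold M; linarith

/-- radius -/
def ρ (i : ℕ) : ℝ := D.M * (i + 1)

theorem ρ_pos (i : ℕ) : 0 < D.ρ i := mul_pos D.M_pos (by positivity)

theorem δ_le_ρ (i : ℕ) : D.δ ≤ D.ρ i := by
  have h1 := D.hΛ
  have h2 := D.hδ
  have h3 : D.δ ≤ D.M := by unfold M; linarith
  have h4 : (1 : ℝ) ≤ i + 1 := by have : (0 : ℝ) ≤ i := Nat.cast_nonneg i; linarith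
  calc D.δ ≤ D.M * 1 := by linarith
    _ ≤ D.M * (i + 1) := mul_le_mul_of_nonneg_left h4 D.M_pos.le

/-- distance of the centre to the base point -/
def t (i : ℕ) : ℝ := 4 * D.M * ((i : ℝ) + 1) ^ 2

/-- centre -/
def c (i : ℕ) : X := (D.o : X) + D.t i • D.e

theorem dist_c (i j : ℕ) : dist (D.c i) (D.c j) = |D.t i - D.t j| := by
  rw [dist_eq_norm]
  have : D.c i - D.c j = (D.t i - D.t j) • D.e := by
    unfold c; rw [sub_smul]; abel
  rw [this, norm_smul, D.he, mul_one, Real.norm_eq_abs]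

theorem dist_o (i : ℕ) : dist (D.o : X) (D.c i) = D.t i := by
  rw [dist_eq_norm]
  have h0 : 0 ≤ D.t i := by unfold t; have := D.M_pos; positivity
  have : (D.o : X) - D.c i = (-(D.t i)) • D.e := by
    unfold c; rw [neg_smul]; abel
  rw [this, norm_smul, D.he, mul_one, Real.norm_eq_abs, abs_neg, abs_of_nonneg h0]

theorem t_sub {i j : ℕ} (h : i < j) : 2 * D.ρ i + 2 * D.ρ j ≤ D.t j - D.t i := by
  have hM := D.M_pos
  have hij : (i : ℝ) + 1 ≤ j := by exact_mod_cast h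
  have hi : (0 : ℝ) ≤ i := Nat.cast_nonneg i
  unfold ρ t
  have : 4 * D.M * ((j : ℝ) + 1) ^ 2 - 4 * D.M * ((i : ℝ) + 1) ^ 2 -
      (2 * (D.M * (i + 1)) + 2 * (D.M * (j + 1))) =
      D.M * (4 * ((j : ℝ) + 1) ^ 2 - 4 * ((i : ℝ) + 1) ^ 2 - 2 * (i + 1) - 2 * (j + 1)) := by ring
  have h2 : 0 ≤ 4 * ((j : ℝ) + 1) ^ 2 - 4 * ((i : ℝ) + 1) ^ 2 - 2 * (i + 1) - 2 * (j + 1) := by
    nlinarith
  nlinarith [mul_nonneg hM.le h2]

/-- bump -/
def β (i : ℕ) (q : X) : ℝ := max 0 (min 1 (2 - dist q (D.c i) / D.ρ i))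

theorem β_nonneg (i : ℕ) (q : X) : 0 ≤ D.β i q := le_max_left _ _

theorem β_le_one (i : ℕ) (q : X) : D.β i q ≤ 1 := max_le zero_le_one (min_le_left _ _)

theorem β_one {i : ℕ} {q : X} (h : dist q (D.c i) ≤ D.ρ i) : D.β i q = 1 := by
  have h1 : dist q (D.c i) / D.ρ i ≤ 1 := (div_le_one (D.ρ_pos i)).2 h
  unfold β
  rw [min_eq_left (by linarith), max_eq_right zero_le_one]

theorem β_zero {i : ℕ} {q : X} (h : 2 * D.ρ i ≤ dist q (D.c i)) : D.β i q = 0 := by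
  have h1 : 2 ≤ dist q (D.c i) / D.ρ i := (le_div_iff₀ (D.ρ_pos i)).2 h
  unfold β
  exact max_eq_left ((min_le_right _ _).trans (by linarith))

theorem β_ne {i : ℕ} {q : X} (h : D.β i q ≠ 0) : dist q (D.c i) < 2 * D.ρ i := by
  by_contra h'
  exact h (D.β_zero (not_lt.1 h'))

theorem β_lip (i : ℕ) (q q' : X) : |D.β i q - D.β i q'| ≤ dist q q' / D.ρ i := by
  unfold β
  refine (abs_max_sub_max_le_max _ _ _ _).trans ?_
  rw [sub_self, abs_zero]
  refine max_le (div_nonneg dist_nonneg (D.ρ_pos i).le) ?_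
  refine (abs_min_sub_min_le_max _ _ _ _).trans ?_
  rw [sub_self, abs_zero]
  refine max_le (div_nonneg dist_nonneg (D.ρ_pos i).le) ?_
  have : 2 - dist q (D.c i) / D.ρ i - (2 - dist q' (D.c i) / D.ρ i) =
      (dist q' (D.c i) - dist q (D.c i)) / D.ρ i := by ring
  rw [this, abs_div, abs_of_pos (D.ρ_pos i)]
  refine div_le_div_of_nonneg_right ?_ (D.ρ_pos i).le
  rw [dist_comm q q']
  exact abs_dist_sub_le q' q (D.c i)

theorem β_disj {i j : ℕ} {q : X} (hi : D.β i q ≠ 0) (hj : D.β j q ≠ 0) : i = j := by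
  by_contra hne
  have key : ∀ a b : ℕ, a < b → D.β a q ≠ 0 → D.β b q ≠ 0 → False := by
    intro a b hab ha hb
    have h1 := D.β_ne ha
    have h2 := D.β_ne hb
    have h3 := dist_triangle_left (D.c b) (D.c a) q
    rw [D.dist_c, abs_of_nonneg] at h3
    · have := D.t_sub hab; linarith
    · have := D.t_sub hab; have := D.ρ_pos a; have := D.ρ_pos b; linarith
  rcases lt_or_gt_of_ne hne with h | h
  · exact key i j h hi hj
  · exact key j i h hj hi

theorem β_o (i : ℕ) : D.β i (D.o : X) = 0 := by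
  apply D.β_zero
  rw [D.dist_o]
  have hM := D.M_pos
  have hi : (0 : ℝ) ≤ i := Nat.cast_nonneg i
  unfold ρ t
  have : (1 : ℝ) ≤ (i : ℝ) + 1 := by linarith
  nlinarith [mul_nonneg hM.le (show (0:ℝ) ≤ 4 * ((i : ℝ) + 1) ^ 2 - 2 * ((i : ℝ) + 1) by nlinarith)]

/-- contraction towards the base point -/
def ψ (i : ℕ) (q : X) : N := D.r ((D.o : X) + D.Λ⁻¹ • (q - D.c i))

/-- dilated copy of the net near the centre -/
def φ (i : ℕ) (p : N) : N := D.r (D.c i + D.Λ • ((p : X) - D.o))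

theorem r_lip (x y : X) : dist (D.r x : X) (D.r y) ≤ dist x y + 2 * D.δ := by
  have h1 := D.hr x
  have h2 := D.hr y
  have h3 := dist_triangle4 (D.r x : X) x y (D.r y)
  rw [dist_comm (D.r x : X) x] at h3
  linarith

theorem Λ_pos : 0 < D.Λ := by have := D.hΛ; linarith

theorem sep (p q : N) (h : p ≠ q) : D.ε ≤ dist (p : X) q :=
  D.hsep p p.2 q q.2 fun h' => h (Subtype.ext h')

theorem two_δ_le (p q : N) (h : p ≠ q) : 2 * D.δ ≤ 2 * D.δ / D.ε * dist (p : X) q := by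
  rw [div_mul_eq_mul_div, le_div_iff₀ D.hε]
  exact mul_le_mul_of_nonneg_left (D.sep p q h) (by have := D.hδ; linarith)

theorem ψ_lip (i : ℕ) (p q : N) : dist (D.ψ i p : X) (D.ψ i q) ≤
    (1 + 2 * D.δ / D.ε) * dist (p : X) q := by
  have hδ := D.hδ
  have hε := D.hε
  rcases eq_or_ne p q with rfl | h
  · simp
  · have h1 := D.r_lip ((D.o : X) + D.Λ⁻¹ • ((p : X) - D.c i)) ((D.o : X) + D.Λ⁻¹ • ((q : X) - D.c i))
    have h2 : dist ((D.o : X) + D.Λ⁻¹ • ((p : X) - D.c i)) ((D.o : X) + D.Λ⁻¹ • ((q : X) - D.c i)) =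
        D.Λ⁻¹ * dist (p : X) q := by
      rw [dist_add_left, dist_smul₀, dist_sub_right, Real.norm_eq_abs,
        abs_of_pos (inv_pos.2 D.Λ_pos)]
    have h3 : D.Λ⁻¹ ≤ 1 := inv_le_one_of_one_le₀ D.hΛ
    have h4 := D.two_δ_le p q h
    have h5 : D.Λ⁻¹ * dist (p : X) q ≤ 1 * dist (p : X) q :=
      mul_le_mul_of_nonneg_right h3 dist_nonneg
    unfold ψ
    rw [add_mul]
    linarith

theorem φ_lip (i : ℕ) (p q : N) : dist (D.φ i p : X) (D.φ i q) ≤
    (D.Λ + 2 * D.δ / D.ε) * dist (p : X) q := by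
  have hδ := D.hδ
  have hε := D.hε
  rcases eq_or_ne p q with rfl | h
  · simp
  · have h1 := D.r_lip (D.c i + D.Λ • ((p : X) - D.o)) (D.c i + D.Λ • ((q : X) - D.o))
    have h2 : dist (D.c i + D.Λ • ((p : X) - D.o)) (D.c i + D.Λ • ((q : X) - D.o)) =
        D.Λ * dist (p : X) q := by
      rw [dist_add_left, dist_smul₀, dist_sub_right, Real.norm_eq_abs,
        abs_of_pos D.Λ_pos]
    have h4 := D.two_δ_le p q h
    unfold φ
    rw [add_mul]
    linarith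

theorem ψ_dist (i : ℕ) (q : X) : dist (D.ψ i q : X) D.o ≤ dist q (D.c i) + D.δ := by
  have h1 := D.hr ((D.o : X) + D.Λ⁻¹ • (q - D.c i))
  have h2 : dist ((D.o : X) + D.Λ⁻¹ • (q - D.c i)) D.o = D.Λ⁻¹ * dist q (D.c i) := by
    rw [dist_eq_norm, add_sub_cancel_left, norm_smul, Real.norm_eq_abs,
      abs_of_pos (inv_pos.2 D.Λ_pos), dist_eq_norm]
  have h3 : D.Λ⁻¹ ≤ 1 := inv_le_one_of_one_le₀ D.hΛ
  have h5 : D.Λ⁻¹ * dist q (D.c i) ≤ 1 * dist q (D.c i) :=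
      mul_le_mul_of_nonneg_right h3 dist_nonneg
  have h6 := dist_triangle_left (D.ψ i q : X) D.o ((D.o : X) + D.Λ⁻¹ • (q - D.c i))
  have h7 : D.ψ i q = D.r ((D.o : X) + D.Λ⁻¹ • (q - D.c i)) := rfl
  rw [h7] at h6 ⊢
  linarith

theorem φ_dist (i : ℕ) (p : N) : dist (D.φ i p : X) (D.c i) ≤ D.Λ * dist (p : X) D.o + D.δ := by
  have h1 := D.hr (D.c i + D.Λ • ((p : X) - D.o))
  have h2 : dist (D.c i + D.Λ • ((p : X) - D.o)) (D.c i) = D.Λ * dist (p : X) D.o := by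
    rw [dist_eq_norm, add_sub_cancel_left, norm_smul, Real.norm_eq_abs,
      abs_of_pos D.Λ_pos, dist_eq_norm]
  have h6 := dist_triangle_left (D.φ i p : X) (D.c i) (D.c i + D.Λ • ((p : X) - D.o))
  have h7 : D.φ i p = D.r (D.c i + D.Λ • ((p : X) - D.o)) := rfl
  rw [h7] at h6 ⊢
  linarith

theorem ψφ (i : ℕ) (p : N) : D.ψ i (D.φ i p : X) = p := by
  have h1 := D.hr (D.c i + D.Λ • ((p : X) - D.o))
  have h7 : D.φ i p = D.r (D.c i + D.Λ • ((p : X) - D.o)) := rfl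
  have hΛ := D.Λ_pos
  have h2 : dist ((D.o : X) + D.Λ⁻¹ • ((D.φ i p : X) - D.c i)) p =
      D.Λ⁻¹ * dist (D.c i + D.Λ • ((p : X) - D.o)) (D.φ i p : X) := by
    rw [dist_comm (D.c i + D.Λ • ((p : X) - D.o)), dist_eq_norm, dist_eq_norm]
    have h0 : (D.o : X) + D.Λ⁻¹ • ((D.φ i p : X) - D.c i) - p =
        D.Λ⁻¹ • ((D.φ i p : X) - (D.c i + D.Λ • ((p : X) - D.o))) := by
      rw [smul_sub, smul_sub, smul_add, smul_smul, inv_mul_cancel₀ hΛ.ne', one_smul]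
      abel
    rw [h0, norm_smul, Real.norm_eq_abs, abs_of_pos (inv_pos.2 hΛ)]
  have h3 : dist ((D.o : X) + D.Λ⁻¹ • ((D.φ i p : X) - D.c i)) p < D.δ / D.Λ := by
    rw [h2, h7, div_eq_inv_mul]
    exact mul_lt_mul_of_pos_left h1 (inv_pos.2 hΛ)
  refine D.hr' p _ (h3.trans D.hΛ') (h3.trans_le ?_)
  exact div_le_self D.hδ.le D.hΛ

end Data

end

end Pool.Agent.Q194.LipNet
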