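import Pool.Agent.Q194.LipNet.Geo

/-!
# `Lip_0(N)` is isomorphic to its countable `ℓ_∞`-sum
-/

set_option autoImplicit false

noncomputable section

namespace Pool.Agent.Q194.LipNet

open scoped ENNReal
open Filter Topology
open Pool.Agent.H266R3.LF

variable {X : Type} [NormedAddCommGroup X] [NormedSpace ℝ X] {N : Set X}

namespace Data

variable (D : Data X N)

/-- Constant. -/
def K : ℝ := 4 + 2 * D.δ / D.ε

theorem K_pos : 0 ≤ D.K := by
  have := D.hδ; have := D.hε; unfold K; positivity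

/-- The copy of `f` near the `i`-th centre. -/
def G (i : ℕ) (f : Lip0 N D.o) (q : N) : ℝ := D.β i q * f.fn (D.ψ i q)

theorem G_zero {i : ℕ} {q : N} (h : D.β i (q : X) = 0) (f : Lip0 N D.o) : D.G i f q = 0 := by
  unfold G; rw [h, zero_mul]

theorem G_lip_aux (i : ℕ) (f : Lip0 N D.o) (q q' : N) (h : D.β i (q : X) ≠ 0) :
    |D.G i f q - D.G i f q'| ≤ D.K * ‖f‖ * dist q q' := by
  have hδ := D.hδ
  have hε := D.hε
  have hρ := D.ρ_pos i
  have h1 := D.β_lip i q q'
  have h2 : |f.fn (D.ψ i q)| ≤ ‖f‖ * (3 * D.ρ i) := by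
    refine (f.abs_fn_le _).trans (mul_le_mul_of_nonneg_left ?_ (norm_nonneg f))
    have h3 := D.ψ_dist i q
    have h4 := D.β_ne h
    have h5 := D.δ_le_ρ i
    rw [Subtype.dist_eq]
    linarith
  have h3 : |f.fn (D.ψ i q) - f.fn (D.ψ i q')| ≤
      ‖f‖ * ((1 + 2 * D.δ / D.ε) * dist q q') := by
    refine (f.abs_sub_le _ _).trans (mul_le_mul_of_nonneg_left ?_ (norm_nonneg f))
    exact D.ψ_lip i q q'
  have h4 : D.G i f q - D.G i f q' = (D.β i q - D.β i q') * f.fn (D.ψ i q) +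
      D.β i q' * (f.fn (D.ψ i q) - f.fn (D.ψ i q')) := by
    unfold G; ring
  rw [h4]
  refine (abs_add_le _ _).trans ?_
  rw [abs_mul, abs_mul, abs_of_nonneg (D.β_nonneg i q')]
  have h5 : |D.β i q - D.β i q'| * |f.fn (D.ψ i q)| ≤ 3 * ‖f‖ * dist q q' := by
    calc _ ≤ (dist (q : X) q' / D.ρ i) * (‖f‖ * (3 * D.ρ i)) :=
          mul_le_mul h1 h2 (abs_nonneg _) (div_nonneg dist_nonneg hρ.le)
      _ = 3 * ‖f‖ * dist (q : X) q' := by field_simp
      _ = _ := rfl
  have h6 : D.β i q' * |f.fn (D.ψ i q) - f.fn (D.ψ i q')| ≤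
      1 * (‖f‖ * ((1 + 2 * D.δ / D.ε) * dist q q')) :=
    mul_le_mul (D.β_le_one i q') h3 (abs_nonneg _) zero_le_one
  calc _ ≤ 3 * ‖f‖ * dist q q' + 1 * (‖f‖ * ((1 + 2 * D.δ / D.ε) * dist q q')) := add_le_add h5 h6
    _ = D.K * ‖f‖ * dist q q' := by unfold K; ring

theorem G_lip (i : ℕ) (f : Lip0 N D.o) (q q' : N) :
    |D.G i f q - D.G i f q'| ≤ D.K * ‖f‖ * dist q q' := by
  by_cases h : D.β i (q : X) = 0
  · by_cases h' : D.β i (q' : X) = 0
    · rw [D.G_zero h, D.G_zero h', sub_zero, abs_zero]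
      exact mul_nonneg (mul_nonneg D.K_pos (norm_nonneg _)) dist_nonneg
    · rw [abs_sub_comm, dist_comm]
      exact D.G_lip_aux i f q' q h'
  · exact D.G_lip_aux i f q q' h

open Classical in
/-- The index of the bump alive at `q`. -/
def idx (q : X) : ℕ := if h : ∃ i, D.β i q ≠ 0 then h.choose else 0

theorem idx_eq {i : ℕ} {q : X} (h : D.β i q ≠ 0) : D.idx q = i := by
  have h' : ∃ i, D.β i q ≠ 0 := ⟨i, h⟩
  unfold idx
  rw [dif_pos h']
  exact D.β_disj h'.choose_spec h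

theorem β_zero_of_ne {i : ℕ} {q : X} (h : i ≠ D.idx q) : D.β i q = 0 := by
  by_contra h'
  exact h (D.idx_eq h').symm

/-- The sum of all copies. -/
def Jf (f : Linf (Lip0 N D.o)) (q : N) : ℝ := D.G (D.idx q) (f (D.idx q).unpair.1) q

theorem Jf_lip (f : Linf (Lip0 N D.o)) (q q' : N) :
    |D.Jf f q - D.Jf f q'| ≤ 2 * D.K * ‖f‖ * dist q q' := by
  have key : ∀ (i : ℕ) (p p' : N), |D.G i (f i.unpair.1) p - D.G i (f i.unpair.1) p'| ≤
      D.K * ‖f‖ * dist p p' := fun i p p' =>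
    (D.G_lip i _ p p').trans (mul_le_mul_of_nonneg_right
      (mul_le_mul_of_nonneg_left (norm_ev_le _ f) D.K_pos) dist_nonneg)
  have hpos : 0 ≤ D.K * ‖f‖ * dist q q' :=
    mul_nonneg (mul_nonneg D.K_pos (norm_nonneg _)) dist_nonneg
  unfold Jf
  rcases eq_or_ne (D.idx (q : X)) (D.idx (q' : X)) with h | h
  · rw [h]
    refine (key _ q q').trans ?_
    linarith
  · have h1 : D.G (D.idx (q : X)) (f (D.idx (q : X)).unpair.1) q' = 0 :=
      D.G_zero (D.β_zero_of_ne h) _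
    have h2 : D.G (D.idx (q' : X)) (f (D.idx (q' : X)).unpair.1) q = 0 :=
      D.G_zero (D.β_zero_of_ne h.symm) _
    have h3 := key (D.idx (q : X)) q q'
    have h4 := key (D.idx (q' : X)) q q'
    rw [h1, sub_zero] at h3
    rw [h2, zero_sub, abs_neg] at h4
    refine (abs_sub _ _).trans ?_
    linarith

/-- The embedding. -/
def J : Linf (Lip0 N D.o) →L[ℝ] Lip0 N D.o :=
  LinearMap.mkContinuous
    { toFun := fun f => Lip0.mk (D.Jf f) (by
          unfold Jf
          exact D.G_zero (D.β_o _) _) (2 * D.K * ‖f‖)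
          (mul_nonneg (mul_nonneg zero_le_two D.K_pos) (norm_nonneg _)) (D.Jf_lip f)
      map_add' := fun f g => Lip0.ext fun q => by
        simp only [Lip0.fn_mk, Lip0.fn_add]
        unfold Jf G
        rw [lp.coeFn_add, Pi.add_apply, Lip0.fn_add]
        ring
      map_smul' := fun c f => Lip0.ext fun q => by
        simp only [Lip0.fn_mk, Lip0.fn_smul, RingHom.id_apply]
        unfold Jf G
        rw [lp.coeFn_smul, Pi.smul_apply, Lip0.fn_smul]
        ring } (2 * D.K) (fun f => Lip0.norm_le' _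
          (mul_nonneg (mul_nonneg zero_le_two D.K_pos) (norm_nonneg _)) (D.Jf_lip f))

theorem J_fn (f : Linf (Lip0 N D.o)) (q : N) : (D.J f).fn q = D.Jf f q := rfl

/-- Constant. -/
def K' : ℝ := D.Λ + 2 * D.δ / D.ε

theorem K'_pos : 0 ≤ D.K' := by
  have := D.hδ; have := D.hε; have := D.Λ_pos; unfold K'; positivity

theorem bd (g : Lip0 N D.o) (i : ℕ) (p p' : N) :
    |g.fn (D.φ i p) - g.fn (D.φ i p')| ≤ D.K' * ‖g‖ * dist p p' := by
  refine (g.abs_sub_le _ _).trans ?_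
  have h := D.φ_lip i p p'
  calc _ ≤ ‖g‖ * ((D.Λ + 2 * D.δ / D.ε) * dist (p : X) p') :=
        mul_le_mul_of_nonneg_left h (norm_nonneg _)
    _ = _ := by unfold K'; rw [Subtype.dist_eq]; ring

/-- Coordinates of the projection. -/
def Qf (j : ℕ) (g : Lip0 N D.o) (p : N) : ℝ :=
  ulim (fun m => g.fn (D.φ (Nat.pair j m) p) - g.fn (D.φ (Nat.pair j m) D.o))

theorem Qf_lip (j : ℕ) (g : Lip0 N D.o) (p p' : N) :
    |D.Qf j g p - D.Qf j g p'| ≤ D.K' * ‖g‖ * dist p p' := by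
  have h1 := ulim_add (a := fun m => g.fn (D.φ (Nat.pair j m) p) - g.fn (D.φ (Nat.pair j m) D.o))
    (b := fun m => -1 * (g.fn (D.φ (Nat.pair j m) p') - g.fn (D.φ (Nat.pair j m) D.o)))
    (C := D.K' * ‖g‖ * dist p D.o) (D := D.K' * ‖g‖ * dist p' D.o)
    (fun m => D.bd g _ _ _) (fun m => by rw [neg_one_mul, abs_neg]; exact D.bd g _ _ _)
  rw [ulim_smul (-1) (fun m => D.bd g (Nat.pair j m) p' D.o)] at h1
  have h2 : D.Qf j g p - D.Qf j g p' = ulim (fun m =>
      (g.fn (D.φ (Nat.pair j m) p) - g.fn (D.φ (Nat.pair j m) D.o)) +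
      (-1 * (g.fn (D.φ (Nat.pair j m) p') - g.fn (D.φ (Nat.pair j m) D.o)))) := by
    rw [h1]; unfold Qf; ring
  rw [h2]
  refine abs_ulim_le fun m => ?_
  have h3 : (g.fn (D.φ (Nat.pair j m) p) - g.fn (D.φ (Nat.pair j m) D.o)) +
      (-1 * (g.fn (D.φ (Nat.pair j m) p') - g.fn (D.φ (Nat.pair j m) D.o))) =
      g.fn (D.φ (Nat.pair j m) p) - g.fn (D.φ (Nat.pair j m) p') := by ring
  rw [h3]
  exact D.bd g _ _ _

/-- Coordinates of the projection, as operators. -/
def Qj (j : ℕ) : Lip0 N D.o →L[ℝ] Lip0 N D.o :=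
  LinearMap.mkContinuous
    { toFun := fun g => Lip0.mk (D.Qf j g) (by
          unfold Qf
          simp only [sub_self]
          exact ulim_of_eventually (Eventually.of_forall fun _ => rfl)) (D.K' * ‖g‖)
          (mul_nonneg D.K'_pos (norm_nonneg _)) (D.Qf_lip j g)
      map_add' := fun f g => Lip0.ext fun p => by
        simp only [Lip0.fn_mk, Lip0.fn_add]
        unfold Qf
        rw [← ulim_add (fun m => D.bd f (Nat.pair j m) p D.o) (fun m => D.bd g (Nat.pair j m) p D.o)]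
        congr 1
        funext m
        simp only [Lip0.fn_add]
        ring
      map_smul' := fun c f => Lip0.ext fun p => by
        simp only [Lip0.fn_mk, Lip0.fn_smul, RingHom.id_apply]
        unfold Qf
        rw [← ulim_smul c (fun m => D.bd f (Nat.pair j m) p D.o)]
        congr 1
        funext m
        simp only [Lip0.fn_smul]
        ring } D.K' (fun g => Lip0.norm_le' _
          (mul_nonneg D.K'_pos (norm_nonneg _)) (D.Qf_lip j g))

theorem Qj_fn (j : ℕ) (g : Lip0 N D.o) (p : N) : (D.Qj j g).fn p = D.Qf j g p := rfl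

/-- The projection. -/
def Q : Lip0 N D.o →L[ℝ] Linf (Lip0 N D.o) :=
  toLinf D.Qj D.K' D.K'_pos fun j g => Lip0.norm_le' _
          (mul_nonneg D.K'_pos (norm_nonneg _)) (D.Qf_lip j g)

theorem Jf_φ (f : Linf (Lip0 N D.o)) {i : ℕ} {p : N} (h : dist (p : X) D.o ≤ i) :
    D.Jf f (D.φ i p) = (f i.unpair.1).fn p := by
  have h1 := D.φ_dist i p
  have hΛ := D.Λ_pos
  have hδ := D.hδ
  have h2 : dist (D.φ i p : X) (D.c i) ≤ D.ρ i := by
    refine h1.trans ?_
    unfold ρ M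
    have h3 : D.Λ * dist (p : X) D.o ≤ D.Λ * i := mul_le_mul_of_nonneg_left h hΛ.le
    have h4 : (0 : ℝ) ≤ i := Nat.cast_nonneg i
    nlinarith [mul_nonneg hδ.le h4]
  have h3 := D.β_one h2
  have h4 : D.idx (D.φ i p : X) = i := D.idx_eq (by rw [h3]; exact one_ne_zero)
  unfold Jf G
  rw [h4, h3, one_mul, D.ψφ]

theorem QJ (f : Linf (Lip0 N D.o)) : D.Q (D.J f) = f := by
  ext j
  refine Lip0.ext fun p => ?_
  have h0 : D.Q (D.J f) j = D.Qj j (D.J f) := rfl
  rw [h0, Qj_fn]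
  unfold Qf
  refine ulim_of_eventually ?_
  obtain ⟨n, hn⟩ := exists_nat_ge (dist (p : X) D.o)
  refine (eventually_ge_atTop n).mono fun m hm => ?_
  have h1 : ((m : ℕ) : ℝ) ≤ (Nat.pair j m : ℕ) := by exact_mod_cast Nat.right_le_pair j m
  have h2 : (n : ℝ) ≤ m := by exact_mod_cast hm
  rw [J_fn, J_fn, D.Jf_φ f (by linarith), D.Jf_φ f (by
    rw [dist_self]; exact Nat.cast_nonneg _)]
  simp

theorem main : Nonempty (Lip0 N D.o ≃L[ℝ] Linf (Lip0 N D.o)) :=
  pelczynski D.J D.Q D.QJ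

end Data

/-- For a net `N` in a normed space, `Lip_0(N)` is linearly isomorphic to its `ℓ_∞`-sum. -/
theorem net_main (X : Type) [NormedAddCommGroup X] [NormedSpace ℝ X] (N : Set X) (ε δ : ℝ)
    (hε : 0 < ε) (hδ : 0 < δ) (hsep : ∀ x ∈ N, ∀ y ∈ N, x ≠ y → ε ≤ dist x y)
    (hden : ∀ x : X, ∃ y ∈ N, dist x y < δ) (o : N) :
    Nonempty (Lip0 N o ≃L[ℝ] Linf (Lip0 N o)) := by
  rcases subsingleton_or_nontrivial X with hX | hX
  · have hs : Subsingleton (Lip0 N o) := ⟨fun f g => Lip0.ext fun x => by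
      have : x = o := Subtype.ext (Subsingleton.elim _ _)
      rw [this, Lip0.fn_base, Lip0.fn_base]⟩
    exact pelczynski 0 0 fun x => by
      ext n
      exact Subsingleton.elim _ _
  · obtain ⟨e, he⟩ := exists_norm_eq X (c := 1) zero_le_one
    obtain ⟨r, hr, hr'⟩ := exists_round (ε := ε) hsep hden
    let D : Data X N :=
      { ε := ε, δ := δ, Λ := 1 + 4 * δ / ε, e := e, o := o, r := r, hε := hε, hδ := hδ
        hΛ := by have : 0 ≤ 4 * δ / ε := by positivity
                 linarith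
        hΛ' := by
          have h1 : 0 < 1 + 4 * δ / ε := by positivity
          rw [div_lt_iff₀ h1]
          have h2 : ε / 2 * (1 + 4 * δ / ε) = ε / 2 + 2 * δ := by field_simp; ring
          rw [h2]
          linarith
        he := he, hsep := hsep, hr := hr, hr' := hr' }
    exact D.main

end Pool.Agent.Q194.LipNet
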