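import Mathlib

/-!
# The decomposition argument for `ℓ_∞`-sums

If the `ℓ_∞`-sum `E` of countably many copies of a normed space `L` is (isomorphic to) a complemented
subspace of `L`, then `L` and `E` are isomorphic.
-/

set_option autoImplicit false

noncomputable section

namespace Pool.Agent.Q194.LipNet

open scoped ENNReal

variable (L : Type*) [NormedAddCommGroup L] [NormedSpace ℝ L]

/-- The `ℓ_∞`-sum of countably many copies of `L`. -/
abbrev Linf : Type _ := lp (fun _ : ℕ => L) ∞

variable {L} {V : Type*} [NormedAddCommGroup V] [NormedSpace ℝ V]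

omit [NormedSpace ℝ L] in
theorem memlp_of_bound (f : ℕ → L) (C : ℝ) (h : ∀ n, ‖f n‖ ≤ C) :
    Memℓp (E := fun _ : ℕ => L) f ∞ := by
  rw [memℓp_infty_iff]
  exact ⟨C, by rintro _ ⟨n, rfl⟩; exact h n⟩

/-- A bounded family of operators into `L` gives an operator into the `ℓ_∞`-sum. -/
def toLinf (T : ℕ → V →L[ℝ] L) (C : ℝ) (hC : 0 ≤ C) (h : ∀ n v, ‖T n v‖ ≤ C * ‖v‖) :
    V →L[ℝ] Linf L :=
  LinearMap.mkContinuous
    { toFun := fun v => ⟨fun n => T n v, memlp_of_bound _ (C * ‖v‖) fun n => h n v⟩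
      map_add' := fun v w => by
        ext n
        exact map_add (T n) v w
      map_smul' := fun c v => by
        ext n
        exact map_smul (T n) c v } C (fun v => lp.norm_le_of_forall_le (by positivity) fun n => h n v)

@[simp] theorem toLinf_apply (T : ℕ → V →L[ℝ] L) (C : ℝ) (hC : 0 ≤ C)
    (h : ∀ n v, ‖T n v‖ ≤ C * ‖v‖) (v : V) (n : ℕ) : toLinf T C hC h v n = T n v := rfl

/-- Evaluation of a coordinate. -/
def ev (n : ℕ) : Linf L →L[ℝ] L :=
  LinearMap.mkContinuous
    { toFun := fun f => f n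
      map_add' := fun _ _ => rfl
      map_smul' := fun _ _ => rfl } 1 (fun f => by
        rw [one_mul]
        exact lp.norm_apply_le_norm ENNReal.top_ne_zero f n)

@[simp] theorem ev_apply (n : ℕ) (f : Linf L) : ev n f = f n := rfl

omit [NormedSpace ℝ L] in
theorem norm_ev_le (n : ℕ) (f : Linf L) : ‖f n‖ ≤ ‖f‖ :=
  lp.norm_apply_le_norm ENNReal.top_ne_zero f n

/-- `E ≃ E × E`. -/
def evenOdd : Linf L ≃L[ℝ] Linf L × Linf L :=
  ContinuousLinearEquiv.equivOfInverse
    ((toLinf (fun n => ev (2 * n)) 1 zero_le_one fun n v => by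
        rw [one_mul]; exact norm_ev_le _ v).prod
      (toLinf (fun n => ev (2 * n + 1)) 1 zero_le_one fun n v => by
        rw [one_mul]; exact norm_ev_le _ v))
    (toLinf (fun n => if n % 2 = 0 then (ev (n / 2)).comp (ContinuousLinearMap.fst ℝ _ _)
        else (ev (n / 2)).comp (ContinuousLinearMap.snd ℝ _ _)) 1 zero_le_one (fun n v => by
          rw [one_mul]
          split_ifs
          · exact (norm_ev_le _ v.1).trans (norm_fst_le v)
          · exact (norm_ev_le _ v.2).trans (norm_snd_le v)))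
    (fun f => by
      ext n
      rcases Nat.even_or_odd' n with ⟨k, rfl | rfl⟩
      · simp
      · have h1 : (2 * k + 1) % 2 = 1 := by omega
        have h2 : (2 * k + 1) / 2 = k := by omega
        simp [h1, h2])
    (fun f => by
      refine Prod.ext ?_ ?_
      · ext n
        simp
      · ext n
        have h1 : (2 * n + 1) % 2 = 1 := by omega
        have h2 : (2 * n + 1) / 2 = n := by omega
        simp [h1, h2])

/-- `E ≃ E × L`. -/
def shiftE : Linf L ≃L[ℝ] Linf L × L :=
  ContinuousLinearEquiv.equivOfInverse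
    ((toLinf (fun n => ev (n + 1)) 1 zero_le_one fun n v => by
        rw [one_mul]; exact norm_ev_le _ v).prod (ev 0))
    (toLinf (fun n => if n = 0 then (ContinuousLinearMap.snd ℝ _ _)
        else (ev (n - 1)).comp (ContinuousLinearMap.fst ℝ _ _)) 1 zero_le_one (fun n v => by
          rw [one_mul]
          split_ifs
          · exact norm_snd_le v
          · exact (norm_ev_le _ v.1).trans (norm_fst_le v)))
    (fun f => by
      ext n
      rcases n with _ | n
      · simp
      · simp)
    (fun f => by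
      refine Prod.ext ?_ ?_
      · ext n
        simp
      · simp)

/-- If `Q ∘ J = id` then `L ≃ E × ker Q`. -/
def splitE {E : Type*} [NormedAddCommGroup E] [NormedSpace ℝ E] (J : E →L[ℝ] L) (Q : L →L[ℝ] E)
    (h : ∀ x, Q (J x) = x) : L ≃L[ℝ] E × (LinearMap.ker (Q : L →ₗ[ℝ] E)) :=
  ContinuousLinearEquiv.equivOfInverse
    (Q.prod ((ContinuousLinearMap.id ℝ L - J.comp Q).codRestrict (LinearMap.ker (Q : L →ₗ[ℝ] E))
      (fun x => by simp [h])))
    (J.comp (ContinuousLinearMap.fst ℝ _ _) +
      (Submodule.subtypeL (LinearMap.ker (Q : L →ₗ[ℝ] E))).comp (ContinuousLinearMap.snd ℝ _ _))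
    (fun x => by simp)
    (fun x => by
      obtain ⟨a, b, hb⟩ := x
      have hb' : Q b = 0 := hb
      refine Prod.ext ?_ (Subtype.ext ?_)
      · simp [h, hb']
      · simp [h, hb'])

/-- The decomposition argument. -/
theorem pelczynski (J : Linf L →L[ℝ] L) (Q : L →L[ℝ] Linf L) (h : ∀ x, Q (J x) = x) :
    Nonempty (L ≃L[ℝ] Linf L) := by
  let W := LinearMap.ker (Q : L →ₗ[ℝ] Linf L)
  let e1 : L ≃L[ℝ] Linf L × W := splitE J Q h
  let e2 : (Linf L × W) ≃L[ℝ] (Linf L × Linf L) × W :=
    ContinuousLinearEquiv.prodCongr evenOdd (ContinuousLinearEquiv.refl ℝ W)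
  let e3 : ((Linf L × Linf L) × W) ≃L[ℝ] Linf L × (Linf L × W) :=
    ContinuousLinearEquiv.prodAssoc ℝ _ _ _
  let e4 : (Linf L × (Linf L × W)) ≃L[ℝ] Linf L × L :=
    ContinuousLinearEquiv.prodCongr (ContinuousLinearEquiv.refl ℝ _) e1.symm
  exact ⟨(((e1.trans e2).trans e3).trans e4).trans shiftE.symm⟩

end Pool.Agent.Q194.LipNet
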